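import Mathlib

set_option autoImplicit false

/-!
All moments of `σ_{-1/2} (n) = ∑_{j ∣ n} j ^ (-1/2)` are bounded on average, and the consequence for
the initial sums of divisors.
-/

namespace Pool.Agent.Y731.DS

open Finset Filter Topology

/-- `g n = ∑_{j ∣ n} 1 / √j` -/
noncomputable def g (n : ℕ) : ℝ := ∑ j ∈ n.divisors, 1 / √(j : ℝ)

/-- the weight `1 / (j √j)` -/
noncomputable def w (j : ℕ) : ℝ := 1 / ((j : ℝ) * √(j : ℝ))

theorem w_nonneg (j : ℕ) : 0 ≤ w j := by unfold w; positivity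

theorem summable_w : Summable w := by
  have h : Summable (fun a : ℕ => 1 / (a : ℝ) ^ (3 / 2 : ℝ)) :=
    Real.summable_one_div_nat_rpow.2 (by norm_num)
  refine h.congr fun a => ?_
  unfold w
  congr 1
  rcases Nat.eq_zero_or_pos a with rfl | ha
  · simp
  · have ha' : (0 : ℝ) < a := by exact_mod_cast ha
    rw [Real.sqrt_eq_rpow, show (3 / 2 : ℝ) = 1 + 1 / 2 by norm_num, Real.rpow_add ha',
      Real.rpow_one]

/-- the sum of the weights -/
noncomputable def W : ℝ := ∑' j, w j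

theorem W_nonneg : 0 ≤ W := tsum_nonneg w_nonneg

theorem sum_w_le (s : Finset ℕ) : ∑ j ∈ s, w j ≤ W :=
  summable_w.sum_le_tsum s fun j _ => w_nonneg j

theorem g_nonneg (n : ℕ) : 0 ≤ g n := Finset.sum_nonneg fun _ _ => by positivity

theorem g_mul_le {j m : ℕ} (hj : j ≠ 0) (hm : m ≠ 0) : g (j * m) ≤ g j * g m := by
  classical
  have h : ∀ c ∈ (j * m).divisors, ∃ p : ℕ × ℕ, p ∈ j.divisors ×ˢ m.divisors ∧ p.1 * p.2 = c := by
    intro c hc
    obtain ⟨a, b, ha, hb, rfl⟩ := exists_dvd_and_dvd_of_dvd_mul (Nat.dvd_of_mem_divisors hc)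
    exact ⟨(a, b), by simp [ha, hb, hj, hm], rfl⟩
  choose! P hP1 hP2 using h
  have hinj : Set.InjOn P ((j * m).divisors : Set ℕ) := by
    intro c hc c' hc' h
    rw [← hP2 c hc, ← hP2 c' hc', h]
  calc g (j * m) = ∑ c ∈ (j * m).divisors, 1 / √((P c).1 : ℝ) * (1 / √((P c).2 : ℝ)) := by
        refine Finset.sum_congr rfl fun c hc => ?_
        have h1 : (c : ℝ) = ((P c).1 : ℝ) * ((P c).2 : ℝ) := by
          rw [← Nat.cast_mul, hP2 c hc]
        rw [h1, Real.sqrt_mul (Nat.cast_nonneg _), one_div_mul_one_div]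
    _ = ∑ p ∈ (j * m).divisors.image P, 1 / √(p.1 : ℝ) * (1 / √(p.2 : ℝ)) := by
        rw [Finset.sum_image hinj]
    _ ≤ ∑ p ∈ j.divisors ×ˢ m.divisors, 1 / √(p.1 : ℝ) * (1 / √(p.2 : ℝ)) := by
        apply Finset.sum_le_sum_of_subset_of_nonneg
        · intro p hp
          obtain ⟨c, hc, rfl⟩ := Finset.mem_image.1 hp
          exact hP1 c hc
        · intros; positivity
    _ = g j * g m := by rw [g, g, Finset.sum_mul_sum, Finset.sum_product]

theorem divisors_eq {m y : ℕ} (hm : m ∈ Ioc 0 y) : m.divisors = (Ioc 0 y).filter (· ∣ m) := by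
  simp only [mem_Ioc] at hm
  ext d
  simp only [Nat.mem_divisors, mem_filter, mem_Ioc]
  constructor
  · rintro ⟨h1, h2⟩
    exact ⟨⟨Nat.pos_of_dvd_of_pos h1 hm.1, (Nat.le_of_dvd hm.1 h1).trans hm.2⟩, h1⟩
  · rintro ⟨⟨_, _⟩, h⟩
    exact ⟨h, by omega⟩

theorem sum_multiples (y j : ℕ) (hj : 0 < j) (ψ : ℕ → ℝ) :
    ∑ n ∈ (Ioc 0 y).filter (fun n => j ∣ n), ψ n = ∑ m ∈ Ioc 0 (y / j), ψ (j * m) := by
  symm
  refine Finset.sum_nbij' (fun m => j * m) (fun n => n / j) ?_ ?_ ?_ ?_ ?_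
  · intro m hm
    simp only [mem_Ioc] at hm
    simp only [mem_filter, mem_Ioc, dvd_mul_right, and_true]
    exact ⟨Nat.mul_pos hj hm.1, (Nat.mul_le_mul_left j hm.2).trans (Nat.mul_div_le y j)⟩
  · intro n hn
    simp only [mem_filter, mem_Ioc] at hn
    simp only [mem_Ioc]
    exact ⟨Nat.div_pos (Nat.le_of_dvd hn.1.1 hn.2) hj, Nat.div_le_div_right hn.1.2⟩
  · intro m _; exact Nat.mul_div_cancel_left m hj
  · intro n hn
    simp only [mem_filter] at hn
    exact Nat.mul_div_cancel' hn.2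
  · intro m _; rfl

theorem sum_divisors_swap (y : ℕ) (φ ψ : ℕ → ℝ) :
    ∑ n ∈ Ioc 0 y, (∑ j ∈ n.divisors, φ j) * ψ n =
      ∑ j ∈ Ioc 0 y, φ j * ∑ m ∈ Ioc 0 (y / j), ψ (j * m) := by
  classical
  have h1 : ∀ n ∈ Ioc 0 y, (∑ j ∈ n.divisors, φ j) * ψ n =
      ∑ j ∈ Ioc 0 y, if j ∣ n then φ j * ψ n else 0 := by
    intro n hn
    rw [divisors_eq hn, Finset.sum_mul, Finset.sum_filter]
  rw [Finset.sum_congr rfl h1, Finset.sum_comm]
  refine Finset.sum_congr rfl fun j hj => ?_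
  rw [← Finset.sum_filter, ← Finset.mul_sum, sum_multiples y j (mem_Ioc.1 hj).1]

theorem abel_le (a b : ℕ → ℝ) (C : ℝ) (hb : ∀ n, 1 ≤ n → b (n + 1) ≤ b n) (hb0 : ∀ n, 0 ≤ b n)
    (hS : ∀ y : ℕ, ∑ j ∈ Ioc 0 y, a j ≤ C * y) (y : ℕ) :
    ∑ j ∈ Ioc 0 y, a j * b j ≤ C * ∑ j ∈ Ioc 0 y, b j := by
  have key : ∀ y : ℕ, b y * (C * y - ∑ j ∈ Ioc 0 y, a j) ≤
      C * ∑ j ∈ Ioc 0 y, b j - ∑ j ∈ Ioc 0 y, a j * b j := by
    intro y
    induction y with
    | zero => simp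
    | succ y ih =>
      rw [Finset.sum_Ioc_succ_top (Nat.zero_le y), Finset.sum_Ioc_succ_top (Nat.zero_le y),
        Finset.sum_Ioc_succ_top (Nat.zero_le y)]
      have h1 : b (y + 1) * (C * y - ∑ j ∈ Ioc 0 y, a j) ≤ b y * (C * y - ∑ j ∈ Ioc 0 y, a j) := by
        rcases Nat.eq_zero_or_pos y with rfl | hy
        · simp
        · exact mul_le_mul_of_nonneg_right (hb y hy) (sub_nonneg.2 (hS y))
      push_cast
      nlinarith
  have h1 := key y
  have h2 : 0 ≤ b y * (C * y - ∑ j ∈ Ioc 0 y, a j) := mul_nonneg (hb0 y) (sub_nonneg.2 (hS y))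
  linarith

theorem w_anti (n : ℕ) (hn : 1 ≤ n) : w (n + 1) ≤ w n := by
  unfold w
  have h1 : (0 : ℝ) < n := by exact_mod_cast hn
  have h2 : (n : ℝ) ≤ ((n + 1 : ℕ) : ℝ) := by push_cast; linarith
  apply one_div_le_one_div_of_le (by positivity)
  exact mul_le_mul h2 (Real.sqrt_le_sqrt h2) (Real.sqrt_nonneg _) (by positivity)

/-- all moments of `g` are bounded on average -/
theorem moment (K : ℕ) : ∃ C : ℝ, 0 ≤ C ∧ ∀ y : ℕ, ∑ n ∈ Ioc 0 y, g n ^ K ≤ C * y := by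
  induction K with
  | zero => exact ⟨1, zero_le_one, fun y => by simp⟩
  | succ K ih =>
    obtain ⟨C, hC0, hC⟩ := ih
    refine ⟨C * (C * W), mul_nonneg hC0 (mul_nonneg hC0 W_nonneg), fun y => ?_⟩
    calc ∑ n ∈ Ioc 0 y, g n ^ (K + 1)
        = ∑ n ∈ Ioc 0 y, (∑ j ∈ n.divisors, 1 / √(j : ℝ)) * g n ^ K := by
          refine Finset.sum_congr rfl fun n _ => ?_
          rw [pow_succ, mul_comm]; rfl
      _ = ∑ j ∈ Ioc 0 y, 1 / √(j : ℝ) * ∑ m ∈ Ioc 0 (y / j), g (j * m) ^ K :=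
          sum_divisors_swap y (fun j => 1 / √(j : ℝ)) (fun n => g n ^ K)
      _ ≤ ∑ j ∈ Ioc 0 y, 1 / √(j : ℝ) * (g j ^ K * (C * ((y : ℝ) / j))) := by
          refine Finset.sum_le_sum fun j hj => mul_le_mul_of_nonneg_left ?_ (by positivity)
          have hj0 : 0 < j := (mem_Ioc.1 hj).1
          calc ∑ m ∈ Ioc 0 (y / j), g (j * m) ^ K
              ≤ ∑ m ∈ Ioc 0 (y / j), g j ^ K * g m ^ K := by
                refine Finset.sum_le_sum fun m hm => ?_
                rw [← mul_pow]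
                exact pow_le_pow_left₀ (g_nonneg _) (g_mul_le hj0.ne' (mem_Ioc.1 hm).1.ne') K
            _ = g j ^ K * ∑ m ∈ Ioc 0 (y / j), g m ^ K := by rw [Finset.mul_sum]
            _ ≤ g j ^ K * (C * ((y / j : ℕ) : ℝ)) :=
                mul_le_mul_of_nonneg_left (hC _) (pow_nonneg (g_nonneg _) _)
            _ ≤ g j ^ K * (C * ((y : ℝ) / j)) :=
                mul_le_mul_of_nonneg_left (mul_le_mul_of_nonneg_left Nat.cast_div_le hC0)
                  (pow_nonneg (g_nonneg _) _)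
      _ = C * y * ∑ j ∈ Ioc 0 y, g j ^ K * w j := by
          rw [Finset.mul_sum]
          refine Finset.sum_congr rfl fun j hj => ?_
          have hj0 : (0 : ℝ) < j := by exact_mod_cast (mem_Ioc.1 hj).1
          have hs : (0 : ℝ) < √(j : ℝ) := Real.sqrt_pos.2 hj0
          unfold w
          field_simp
      _ ≤ C * y * (C * ∑ j ∈ Ioc 0 y, w j) :=
          mul_le_mul_of_nonneg_left (abel_le _ _ C w_anti w_nonneg hC y) (by positivity)
      _ ≤ C * y * (C * W) :=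
          mul_le_mul_of_nonneg_left (mul_le_mul_of_nonneg_left (sum_w_le _) hC0) (by positivity)
      _ = C * (C * W) * y := by ring

/-- an initial sum of divisors in terms of the last divisor -/
theorem ratio_le {n d : ℕ} {N : ℝ} (hd : d ∈ n.divisors)
    (hN : N ≤ ∑ e ∈ n.divisors with e ≤ d, (e : ℝ)) :
    N / n ≤ g n * (1 / √((n / d : ℕ) : ℝ)) := by
  have hn : n ≠ 0 := (Nat.mem_divisors.1 hd).2
  have hnR : (0 : ℝ) < n := by exact_mod_cast Nat.pos_of_ne_zero hn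
  have hq : ∀ e ∈ n.divisors, (0 : ℝ) < e ∧ 1 / √((n / e : ℕ) : ℝ) = √((e : ℝ) / n) := by
    intro e he
    have he' := Nat.mem_divisors.1 he
    have he0 : (0 : ℝ) < e := by exact_mod_cast Nat.pos_of_mem_divisors he
    refine ⟨he0, ?_⟩
    rw [Nat.cast_div he'.1 he0.ne', one_div, ← Real.sqrt_inv, inv_div]
  have h1 : ∀ e ∈ n.divisors.filter (· ≤ d), (e : ℝ) / n ≤
      1 / √((n / e : ℕ) : ℝ) * √((d : ℝ) / n) := by
    intro e he
    obtain ⟨he1, he2⟩ := Finset.mem_filter.1 he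
    rw [(hq e he1).2]
    have h2 : √((e : ℝ) / n) ≤ √((d : ℝ) / n) := by
      apply Real.sqrt_le_sqrt
      have : (e : ℝ) ≤ d := by exact_mod_cast he2
      exact div_le_div_of_nonneg_right this hnR.le
    calc (e : ℝ) / n = √((e : ℝ) / n) * √((e : ℝ) / n) :=
          (Real.mul_self_sqrt (by positivity)).symm
      _ ≤ √((e : ℝ) / n) * √((d : ℝ) / n) := mul_le_mul_of_nonneg_left h2 (Real.sqrt_nonneg _)
  calc N / n ≤ (∑ e ∈ n.divisors with e ≤ d, (e : ℝ)) / n :=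
        div_le_div_of_nonneg_right hN hnR.le
    _ = ∑ e ∈ n.divisors with e ≤ d, (e : ℝ) / n := by rw [Finset.sum_div]
    _ ≤ ∑ e ∈ n.divisors with e ≤ d, 1 / √((n / e : ℕ) : ℝ) * √((d : ℝ) / n) :=
        Finset.sum_le_sum h1
    _ ≤ ∑ e ∈ n.divisors, 1 / √((n / e : ℕ) : ℝ) * √((d : ℝ) / n) :=
        Finset.sum_le_sum_of_subset_of_nonneg (Finset.filter_subset _ _)
          (fun _ _ _ => by positivity)
    _ = g n * (1 / √((n / d : ℕ) : ℝ)) := by
        rw [← Finset.sum_mul, (hq d hd).2, g,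
          Nat.sum_div_divisors n (fun j : ℕ => 1 / √(j : ℝ))]

/-- **moments of `N / m`** where `N` is the sum of (some of) the divisors `≤ d` of `m` -/
theorem main_moment (K : ℕ) : ∃ C : ℝ, 0 ≤ C ∧ ∀ (F : ℕ → ℕ → ℕ)
    (_ : ∀ m d, F m d ≤ ∑ e ∈ m.divisors with e ≤ d, e)
    (x : ℕ) (S : Finset ℕ) (m d : ℕ → ℕ)
    (_ : ∀ N ∈ S, 0 < N ∧ N ≤ x ∧ d N ∈ (m N).divisors ∧ N = F (m N) (d N)),
    ∑ N ∈ S, ((N : ℝ) / m N) ^ K ≤ C * x := by
  classical
  obtain ⟨C, hC0, hC⟩ := moment (K + 3)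
  refine ⟨1 + W * C, by have := W_nonneg; positivity, ?_⟩
  intro F hF x S m d hS
  have hcard : (S.card : ℝ) ≤ x := by
    have h1 : S ⊆ Ioc 0 x := fun N hN => by
      obtain ⟨h1, h2, -, -⟩ := hS N hN
      exact mem_Ioc.2 ⟨h1, h2⟩
    have := Finset.card_le_card h1
    rw [Nat.card_Ioc] at this
    exact_mod_cast this
  set S' := S.filter (fun N => m N ≤ x) with hS'
  have hpt : ∀ N ∈ S, ((N : ℝ) / m N) ^ K ≤
      1 + if m N ≤ x then ((N : ℝ) / m N) ^ (K + 3) else 0 := by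
    intro N hN
    obtain ⟨h1, h2, h3, -⟩ := hS N hN
    have hm0 : (0 : ℝ) < m N := by
      exact_mod_cast Nat.pos_of_ne_zero (Nat.mem_divisors.1 h3).2
    have ht0 : 0 ≤ (N : ℝ) / m N := by positivity
    by_cases ht : (N : ℝ) / m N ≤ 1
    · have h4 : ((N : ℝ) / m N) ^ K ≤ 1 := pow_le_one₀ ht0 ht
      have h5 : (0 : ℝ) ≤ if m N ≤ x then ((N : ℝ) / m N) ^ (K + 3) else 0 := by
        split_ifs
        · positivity
        · exact le_rfl
      linarith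
    · push Not at ht
      have h4 : m N ≤ x := by
        rw [lt_div_iff₀ hm0, one_mul] at ht
        have h5 : m N < N := by exact_mod_cast ht
        omega
      rw [if_pos h4]
      have h5 : ((N : ℝ) / m N) ^ K ≤ ((N : ℝ) / m N) ^ (K + 3) :=
        pow_le_pow_right₀ ht.le (by omega)
      linarith
  have hsum1 : ∑ N ∈ S, ((N : ℝ) / m N) ^ K ≤ x + ∑ N ∈ S', ((N : ℝ) / m N) ^ (K + 3) := by
    calc ∑ N ∈ S, ((N : ℝ) / m N) ^ K
        ≤ ∑ N ∈ S, (1 + if m N ≤ x then ((N : ℝ) / m N) ^ (K + 3) else 0) :=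
          Finset.sum_le_sum hpt
      _ = S.card + ∑ N ∈ S', ((N : ℝ) / m N) ^ (K + 3) := by
          rw [Finset.sum_add_distrib, hS', Finset.sum_filter]
          simp
      _ ≤ _ := by linarith
  set wt : ℕ × ℕ → ℝ := fun p => g p.1 ^ (K + 3) * w (p.1 / p.2) with hwt
  have hwt0 : ∀ p, 0 ≤ wt p := fun p => mul_nonneg (pow_nonneg (g_nonneg _) _) (w_nonneg _)
  have hle : ∀ N ∈ S', ((N : ℝ) / m N) ^ (K + 3) ≤ wt (m N, d N) := by
    intro N hN
    obtain ⟨hNS, hmx⟩ := Finset.mem_filter.1 hN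
    obtain ⟨h1, h2, h3, h4⟩ := hS N hNS
    have hm0 : m N ≠ 0 := (Nat.mem_divisors.1 h3).2
    have hNle : ((N : ℕ) : ℝ) ≤ ∑ e ∈ (m N).divisors with e ≤ d N, (e : ℝ) := by
      have h5 := hF (m N) (d N)
      rw [← h4] at h5
      have h6 : (N : ℝ) ≤ ((∑ e ∈ (m N).divisors with e ≤ d N, e : ℕ) : ℝ) := Nat.cast_le.2 h5
      rwa [Nat.cast_sum] at h6
    have hr := ratio_le h3 hNle
    have hJ : 1 ≤ m N / d N := by
      have := Nat.div_pos (Nat.divisor_le h3) (Nat.pos_of_mem_divisors h3)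
      exact this
    set J := m N / d N with hJdef
    have hJR : (1 : ℝ) ≤ J := by exact_mod_cast hJ
    have hs1 : (1 : ℝ) ≤ √(J : ℝ) := by
      rw [show (1 : ℝ) = √1 by simp]
      exact Real.sqrt_le_sqrt hJR
    have h6 : (1 / √(J : ℝ)) ^ (K + 3) ≤ w J := by
      have h7 : (1 / √(J : ℝ)) ^ (K + 3) ≤ (1 / √(J : ℝ)) ^ 3 := by
        apply pow_le_pow_of_le_one (by positivity) _ (by omega)
        rw [div_le_one (by positivity)]
        exact hs1
      have h8 : (1 / √(J : ℝ)) ^ 3 = w J := by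
        unfold w
        rw [div_pow, one_pow]
        congr 1
        rw [pow_succ, Real.sq_sqrt (by positivity)]
      rw [← h8]
      exact h7
    calc ((N : ℝ) / m N) ^ (K + 3) ≤ (g (m N) * (1 / √(J : ℝ))) ^ (K + 3) :=
          pow_le_pow_left₀ (by positivity) hr _
      _ = g (m N) ^ (K + 3) * (1 / √(J : ℝ)) ^ (K + 3) := by rw [mul_pow]
      _ ≤ wt (m N, d N) := mul_le_mul_of_nonneg_left h6 (pow_nonneg (g_nonneg _) _)
  set T : Finset (ℕ × ℕ) := (Ioc 0 x).biUnion (fun k => k.divisors.image (fun e => (k, e))) with hT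
  have hinj : Set.InjOn (fun N => (m N, d N)) (S' : Set ℕ) := by
    intro N hN N' hN' h
    have h1 := (hS N (Finset.mem_filter.1 hN).1).2.2.2
    have h2 := (hS N' (Finset.mem_filter.1 hN').1).2.2.2
    simp only [Prod.mk.injEq] at h
    rw [h1, h2, h.1, h.2]
  have hsub : S'.image (fun N => (m N, d N)) ⊆ T := by
    intro p hp
    obtain ⟨N, hN, rfl⟩ := Finset.mem_image.1 hp
    obtain ⟨hNS, hmx⟩ := Finset.mem_filter.1 hN
    have h3 := (hS N hNS).2.2.1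
    rw [hT, Finset.mem_biUnion]
    refine ⟨m N, mem_Ioc.2 ⟨Nat.pos_of_ne_zero (Nat.mem_divisors.1 h3).2, hmx⟩, ?_⟩
    exact Finset.mem_image.2 ⟨d N, h3, rfl⟩
  have hTsum : ∑ p ∈ T, wt p ≤ ∑ k ∈ Ioc 0 x, g k ^ (K + 3) * W := by
    have hdisj : ((Ioc 0 x : Finset ℕ) : Set ℕ).PairwiseDisjoint
        (fun k => k.divisors.image (fun e => (k, e))) := by
      intro k _ k' _ hkk
      rw [Function.onFun, Finset.disjoint_left]
      intro p hp hp'
      obtain ⟨e, _, rfl⟩ := Finset.mem_image.1 hp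
      obtain ⟨e', _, h⟩ := Finset.mem_image.1 hp'
      simp only [Prod.mk.injEq] at h
      exact hkk h.1.symm
    rw [hT, Finset.sum_biUnion hdisj]
    refine Finset.sum_le_sum fun k _ => ?_
    rw [Finset.sum_image (fun e _ e' _ h => by simpa using h)]
    simp only [hwt]
    rw [← Finset.mul_sum, Nat.sum_div_divisors k (fun j : ℕ => w j)]
    exact mul_le_mul_of_nonneg_left (sum_w_le _) (pow_nonneg (g_nonneg _) _)
  have hsum2 : ∑ N ∈ S', ((N : ℝ) / m N) ^ (K + 3) ≤ W * (C * x) := by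
    calc ∑ N ∈ S', ((N : ℝ) / m N) ^ (K + 3) ≤ ∑ N ∈ S', wt (m N, d N) := Finset.sum_le_sum hle
      _ = ∑ p ∈ S'.image (fun N => (m N, d N)), wt p := by rw [Finset.sum_image hinj]
      _ ≤ ∑ p ∈ T, wt p := Finset.sum_le_sum_of_subset_of_nonneg hsub (fun p _ _ => hwt0 p)
      _ ≤ ∑ k ∈ Ioc 0 x, g k ^ (K + 3) * W := hTsum
      _ = W * ∑ k ∈ Ioc 0 x, g k ^ (K + 3) := by rw [← Finset.sum_mul, mul_comm]
      _ ≤ W * (C * x) := mul_le_mul_of_nonneg_left (hC x) W_nonneg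
  linarith

end Pool.Agent.Y731.DS
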